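import Pool.Agent.Helper55.CM.Defs
import Pool.Agent.Helper7.GPC.Div

/-! Block MT (MP_b6b996_nt): the main term of the type I part. -/

set_option autoImplicit false

namespace Pool.Agent.Helper9.CMX

open Finset
open Pool.Agent.Helper55.CM

theorem round_err (N Z d n : ℕ) :
    |(((N / (d * n) : ℕ) : ℝ) - ((Z / d : ℕ) : ℝ)) - ((N : ℝ) / (d * n) - (Z : ℝ) / d)| ≤ 1 := by
  have h1 : ((N / (d * n) : ℕ) : ℝ) ≤ (N : ℝ) / ((d * n : ℕ) : ℝ) := Nat.cast_div_le
  have h2 := Nat.lt_floor_add_one ((N : ℝ) / ((d * n : ℕ) : ℝ))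
  rw [Nat.floor_div_eq_div] at h2
  have h3 : ((Z / d : ℕ) : ℝ) ≤ (Z : ℝ) / d := Nat.cast_div_le
  have h4 := Nat.lt_floor_add_one ((Z : ℝ) / d)
  rw [Nat.floor_div_eq_div] at h4
  push_cast at h1 h2
  rw [abs_le]
  constructor <;> linarith

theorem card_mult (M q : ℕ) : ((Icc 1 M).filter (fun k => q ∣ k)).card = M / q := by
  rw [← Nat.Ioc_filter_dvd_card_eq_div]
  rfl

theorem pairs_card (Y K q : ℕ) (D : ℝ)
    (hD : ∀ k : ℕ, 1 ≤ k → k ≤ Y * K → (k.divisors.card : ℝ) ≤ D) (hD0 : 0 ≤ D) :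
    ∑ d ∈ Icc 1 Y, (((Icc 1 K).filter (fun n => q ∣ d * n)).card : ℝ) ≤
      D * (((Y * K : ℕ) : ℝ) / q) := by
  set S : Finset (ℕ × ℕ) := (Icc 1 Y ×ˢ Icc 1 K).filter (fun p => q ∣ p.1 * p.2) with hS
  have h1 : ∑ d ∈ Icc 1 Y, (((Icc 1 K).filter (fun n => q ∣ d * n)).card : ℝ) = (S.card : ℝ) := by
    have : S.card = ∑ d ∈ Icc 1 Y, ((Icc 1 K).filter (fun n => q ∣ d * n)).card := by
      rw [hS, card_filter, sum_product]
      refine sum_congr rfl fun d _ => ?_
      rw [card_filter]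
    rw [this]
    push_cast
    rfl
  rw [h1]
  set T := (Icc 1 (Y * K)).filter (fun k => q ∣ k) with hT
  have h2 : S.card = ∑ b ∈ T, (S.filter (fun p => p.1 * p.2 = b)).card := by
    apply card_eq_sum_card_fiberwise
    intro p hp
    rw [hS] at hp
    simp only [coe_filter, mem_product, mem_Icc, Set.mem_ofPred_eq] at hp
    simp only [hT, coe_filter, mem_Icc, Set.mem_ofPred_eq]
    obtain ⟨⟨⟨ha, hb⟩, hc, hd⟩, he⟩ := hp
    exact ⟨⟨Nat.mul_pos ha hc, Nat.mul_le_mul hb hd⟩, he⟩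
  have h3 : ∀ b ∈ T, ((S.filter (fun p => p.1 * p.2 = b)).card : ℝ) ≤ D := by
    intro b hb
    rw [hT, mem_filter, mem_Icc] at hb
    refine le_trans ?_ (hD b hb.1.1 hb.1.2)
    have : (S.filter (fun p => p.1 * p.2 = b)).card ≤ b.divisors.card := by
      apply card_le_card_of_injOn (fun p => p.1)
      · intro p hp
        simp only [coe_filter, Set.mem_ofPred_eq] at hp
        simp only [mem_coe, Nat.mem_divisors]
        exact ⟨⟨p.2, hp.2.symm⟩, by omega⟩
      · intro p hp p' hp' h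
        simp only [coe_filter, Set.mem_ofPred_eq] at hp hp'
        have h' : p.1 = p'.1 := h
        have hp1 : 0 < p.1 := by
          rw [Nat.pos_iff_ne_zero]
          intro h0
          have := hp.2
          rw [h0, zero_mul] at this
          omega
        have h4 : p.1 * p.2 = p.1 * p'.2 := by
          rw [hp.2, h', hp'.2]
        exact Prod.ext h' (Nat.eq_of_mul_eq_mul_left hp1 h4)
    exact_mod_cast this
  rw [h2]
  push_cast
  refine (sum_le_sum h3).trans ?_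
  rw [sum_const, nsmul_eq_mul, hT, card_mult, mul_comm]
  have h5 : (((Y * K) / q : ℕ) : ℝ) ≤ ((Y * K : ℕ) : ℝ) / q := Nat.cast_div_le
  push_cast at h5 ⊢
  exact mul_le_mul_of_nonneg_left h5 hD0

theorem dvd_iff9 {q : ℕ} (d n : ℕ) (hq : 1 ≤ q) : q ∣ d * n ↔ q / Nat.gcd d q ∣ n := by
  have hg : 0 < Nat.gcd d q := Nat.gcd_pos_of_pos_right _ hq
  obtain ⟨d', hd'⟩ := Nat.gcd_dvd_left d q
  obtain ⟨q', hq'⟩ := Nat.gcd_dvd_right d q
  set g := Nat.gcd d q with hgdef
  have hc : Nat.Coprime q' d' := by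
    have h := Nat.coprime_div_gcd_div_gcd (m := d) (n := q) hg
    rw [← hgdef] at h
    have e1 : d / g = d' := by rw [hd']; exact Nat.mul_div_cancel_left _ hg
    have e2 : q / g = q' := by rw [hq']; exact Nat.mul_div_cancel_left _ hg
    rw [e1, e2] at h
    exact h.symm
  have e2 : q / g = q' := by rw [hq']; exact Nat.mul_div_cancel_left _ hg
  rw [e2]
  constructor
  · intro h
    rw [hq', hd', mul_assoc] at h
    exact hc.dvd_of_dvd_mul_left (Nat.dvd_of_mul_dvd_mul_left hg h)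
  · rintro ⟨m, rfl⟩
    rw [hq', hd']
    exact ⟨d' * m, by ring⟩

theorem inner_mu (K r : ℕ) (hr : 1 ≤ r) (f : ℕ → ℝ) :
    ∑ n ∈ (Icc 1 K).filter (fun n => r ∣ n), (mu n : ℝ) * f n =
      (mu r : ℝ) * ∑ m ∈ (Icc 1 (K / r)).filter (fun m => m.Coprime r), (mu m : ℝ) * f (r * m) := by
  have h1 : ∑ n ∈ (Icc 1 K).filter (fun n => r ∣ n), (mu n : ℝ) * f n =
      ∑ m ∈ Icc 1 (K / r), (mu (r * m) : ℝ) * f (r * m) := by
    symm
    refine sum_nbij (fun m => r * m) ?_ ?_ ?_ (fun _ _ => rfl)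
    · intro m hm
      rw [mem_Icc] at hm
      simp only [mem_filter, mem_Icc]
      refine ⟨⟨Nat.mul_pos hr hm.1, ?_⟩, dvd_mul_right _ _⟩
      rw [mul_comm]
      exact (Nat.le_div_iff_mul_le hr).1 hm.2
    · intro m _ m' _ h
      exact Nat.eq_of_mul_eq_mul_left hr h
    · intro n hn
      simp only [coe_filter, mem_Icc, Set.mem_ofPred_eq] at hn
      obtain ⟨⟨ha, hb⟩, m, rfl⟩ := hn
      refine ⟨m, ?_, rfl⟩
      simp only [coe_Icc, Set.mem_Icc]
      refine ⟨?_, ?_⟩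
      · rcases Nat.eq_zero_or_pos m with h0 | h0
        · rw [h0, mul_zero] at ha
          omega
        · exact h0
      · rw [Nat.le_div_iff_mul_le hr, mul_comm]
        exact hb
  rw [h1, sum_filter, mul_sum]
  refine sum_congr rfl fun m _ => ?_
  unfold mu
  by_cases hc : m.Coprime r
  · rw [if_pos hc, ArithmeticFunction.isMultiplicative_moebius.map_mul_of_coprime hc.symm]
    push_cast
    ring
  · rw [if_neg hc, mul_zero, ArithmeticFunction.moebius_eq_zero_of_not_squarefree, Int.cast_zero,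
      zero_mul]
    rw [Nat.squarefree_mul_iff]
    rintro ⟨h, -, -⟩
    exact hc h.symm

theorem abs_mu_le (n : ℕ) : |(mu n : ℝ)| ≤ 1 := by
  unfold mu
  exact_mod_cast ArithmeticFunction.abs_moebius_le_one

end Pool.Agent.Helper9.CMX
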