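import Pool.Agent.Helper9.CMX.MTa

/-! Block MT (MP_b6b996_nt): the main term of the type I part, second half. -/

set_option autoImplicit false

namespace Pool.Agent.Helper9.CMX

open Finset
open Pool.Agent.Helper55.CM

/-- the hypothesis on sums of the Moebius function -/
def MuS (a ε C : ℝ) : Prop :=
  ∀ X r : ℕ, 1 ≤ X → 1 ≤ r →
    |∑ n ∈ (Icc 1 X).filter (fun n => n.Coprime r), (mu n : ℝ)| ≤
      C * (r : ℝ) ^ ε * (X : ℝ) ^ (a + ε) ∧
    |∑ n ∈ (Icc 1 X).filter (fun n => n.Coprime r), (mu n : ℝ) / n| ≤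
      C * (r : ℝ) ^ ε * (X : ℝ) ^ (a - 1 + ε)

theorem per_d {a ε C : ℝ} (ha : 1 / 2 ≤ a) (ha1 : a ≤ 1) (hε : 0 < ε) (hC : 0 ≤ C)
    (H : MuS a ε C) {N Z r K : ℕ} (hZ : 1 ≤ Z) (hZN : Z ≤ N) (hr : 1 ≤ r) (hrN : r ≤ N)
    (hK : K = N / Z) :
    |(N : ℝ) * ∑ n ∈ (Icc 1 K).filter (fun n => r ∣ n), (mu n : ℝ) * (1 / (n : ℝ)) -
      (Z : ℝ) * ∑ n ∈ (Icc 1 K).filter (fun n => r ∣ n), (mu n : ℝ) * 1| ≤
      5 * C * (N : ℝ) ^ (2 * ε) * Z * ((K : ℝ) / r) ^ a := by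
  have hN : 1 ≤ N := hZ.trans hZN
  have hN0 : (0 : ℝ) < N := by exact_mod_cast hN
  have hN1 : (1 : ℝ) ≤ N := by exact_mod_cast hN
  have hZ0 : (0 : ℝ) < Z := by exact_mod_cast hZ
  have hr0 : (0 : ℝ) < r := by exact_mod_cast hr
  have hr1 : (1 : ℝ) ≤ r := by exact_mod_cast hr
  have hrN' : (r : ℝ) ≤ N := by exact_mod_cast hrN
  have hK1 : 1 ≤ K := by
    rw [hK]
    exact Nat.div_pos hZN hZ
  have hK0 : (0 : ℝ) < K := by exact_mod_cast hK1
  have hKN : K ≤ N := by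
    rw [hK]
    exact Nat.div_le_self _ _
  have hNK : (N : ℝ) ≤ 2 * Z * K := by
    have h1 : N < Z * (K + 1) := by
      rw [hK]
      exact Nat.lt_mul_div_succ N hZ
    have h2 : (N : ℝ) < Z * (K + 1) := by exact_mod_cast h1
    have h3 : (1 : ℝ) ≤ K := by exact_mod_cast hK1
    nlinarith
  rw [inner_mu K r hr, inner_mu K r hr]
  rcases Nat.eq_zero_or_pos (K / r) with h0 | h0
  · rw [h0]
    simp only [show Icc 1 0 = (∅ : Finset ℕ) from rfl, filter_empty, sum_empty, mul_zero, sub_zero,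
      abs_zero]
    positivity
  set X := K / r with hX
  obtain ⟨h1, h2⟩ := H X r h0 hr
  have hX0 : (0 : ℝ) < X := by exact_mod_cast h0
  have hXK : (X : ℝ) ≤ (K : ℝ) / r := by
    rw [hX]
    exact Nat.cast_div_le
  have hXN : (X : ℝ) ≤ N := by
    have : X ≤ N := (Nat.div_le_self _ _).trans hKN
    exact_mod_cast this
  have hKX : (K : ℝ) / r / 2 ≤ X := by
    have h3 := Nat.lt_floor_add_one ((K : ℝ) / r)
    rw [Nat.floor_div_eq_div, ← hX] at h3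
    have h4 : (1 : ℝ) ≤ X := by exact_mod_cast h0
    linarith
  set S1 := ∑ m ∈ (Icc 1 X).filter (fun m => m.Coprime r), (mu m : ℝ) with hS1
  set S2 := ∑ m ∈ (Icc 1 X).filter (fun m => m.Coprime r), (mu m : ℝ) / m with hS2
  have e1 : ∑ m ∈ (Icc 1 X).filter (fun m => m.Coprime r), (mu m : ℝ) * (1 / ((r * m : ℕ) : ℝ)) =
      S2 / r := by
    rw [hS2, sum_div]
    refine sum_congr rfl fun m _ => ?_
    push_cast
    field_simp
  have e2 : ∑ m ∈ (Icc 1 X).filter (fun m => m.Coprime r), (mu m : ℝ) * 1 = S1 := by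
    simp only [mul_one]
    rfl
  rw [e1, e2]
  have hre : (r : ℝ) ^ ε ≤ (N : ℝ) ^ ε := Real.rpow_le_rpow hr0.le hrN' hε.le
  have hXe : (X : ℝ) ^ ε ≤ (N : ℝ) ^ ε := Real.rpow_le_rpow hX0.le hXN hε.le
  have hNN : (N : ℝ) ^ (2 * ε) = (N : ℝ) ^ ε * (N : ℝ) ^ ε := by
    rw [← Real.rpow_add hN0]
    ring_nf
  set P : ℝ := ((K : ℝ) / r) ^ a with hP
  have hP0 : 0 ≤ P := by positivity
  have hNe0 : 0 ≤ (N : ℝ) ^ ε := by positivity
  -- the first sum
  have b1 : |S1| ≤ C * (N : ℝ) ^ (2 * ε) * P := by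
    refine h1.trans ?_
    rw [Real.rpow_add hX0, hNN]
    calc C * (r : ℝ) ^ ε * ((X : ℝ) ^ a * (X : ℝ) ^ ε)
        ≤ C * (N : ℝ) ^ ε * (P * (N : ℝ) ^ ε) := by
          have : (X : ℝ) ^ a ≤ P := Real.rpow_le_rpow hX0.le hXK (by linarith)
          gcongr
      _ = _ := by ring
  -- the second sum
  have b2 : |S2| * ((K : ℝ) / r) ≤ 2 * C * (N : ℝ) ^ (2 * ε) * P := by
    have h5 : (X : ℝ) ^ (a - 1) ≤ 2 * ((K : ℝ) / r) ^ (a - 1) := by
      calc (X : ℝ) ^ (a - 1) ≤ ((K : ℝ) / r / 2) ^ (a - 1) :=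
            Real.rpow_le_rpow_of_nonpos (by positivity) hKX (by linarith)
        _ = ((K : ℝ) / r) ^ (a - 1) / 2 ^ (a - 1) := by
            rw [Real.div_rpow (by positivity) (by norm_num)]
        _ = 2 ^ (1 - a) * ((K : ℝ) / r) ^ (a - 1) := by
            rw [div_eq_mul_inv, ← Real.rpow_neg (by norm_num), neg_sub, mul_comm]
        _ ≤ 2 * ((K : ℝ) / r) ^ (a - 1) := by
            have : (2 : ℝ) ^ (1 - a) ≤ 2 ^ (1 : ℝ) :=
              Real.rpow_le_rpow_of_exponent_le (by norm_num) (by linarith)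
            rw [Real.rpow_one] at this
            gcongr
    have h6 : ((K : ℝ) / r) ^ (a - 1) * ((K : ℝ) / r) = P := by
      rw [hP, Real.rpow_sub_one (by positivity)]
      field_simp
    calc |S2| * ((K : ℝ) / r) ≤ (C * (r : ℝ) ^ ε * (X : ℝ) ^ (a - 1 + ε)) * ((K : ℝ) / r) := by
          gcongr
      _ = C * (r : ℝ) ^ ε * ((X : ℝ) ^ (a - 1) * (X : ℝ) ^ ε) * ((K : ℝ) / r) := by
          rw [Real.rpow_add hX0]
      _ ≤ C * (N : ℝ) ^ ε * ((2 * ((K : ℝ) / r) ^ (a - 1)) * (N : ℝ) ^ ε) * ((K : ℝ) / r) := by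
          gcongr
      _ = 2 * C * ((N : ℝ) ^ ε * (N : ℝ) ^ ε) * (((K : ℝ) / r) ^ (a - 1) * ((K : ℝ) / r)) := by
          ring
      _ = 2 * C * (N : ℝ) ^ (2 * ε) * P := by rw [h6, hNN]
  have b3 : (N : ℝ) * (|S2| / r) ≤ 4 * C * (N : ℝ) ^ (2 * ε) * Z * P := by
    calc (N : ℝ) * (|S2| / r) ≤ (2 * Z * K) * (|S2| / r) := by gcongr
      _ = 2 * Z * (|S2| * ((K : ℝ) / r)) := by ring
      _ ≤ 2 * Z * (2 * C * (N : ℝ) ^ (2 * ε) * P) := by gcongr
      _ = _ := by ring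
  have hmu := abs_mu_le r
  have c1 : |(N : ℝ) * ((mu r : ℝ) * (S2 / r))| ≤ (N : ℝ) * (|S2| / r) := by
    rw [abs_mul, abs_mul, abs_div, abs_of_pos hN0, abs_of_pos hr0]
    have : |(mu r : ℝ)| * (|S2| / r) ≤ 1 * (|S2| / r) := by gcongr
    rw [one_mul] at this
    gcongr
  have c2 : |(Z : ℝ) * ((mu r : ℝ) * S1)| ≤ (Z : ℝ) * |S1| := by
    rw [abs_mul, abs_mul, abs_of_pos hZ0]
    have : |(mu r : ℝ)| * |S1| ≤ 1 * |S1| := by gcongr
    rw [one_mul] at this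
    gcongr
  calc |(N : ℝ) * ((mu r : ℝ) * (S2 / r)) - (Z : ℝ) * ((mu r : ℝ) * S1)|
      ≤ |(N : ℝ) * ((mu r : ℝ) * (S2 / r))| + |(Z : ℝ) * ((mu r : ℝ) * S1)| := abs_sub _ _
    _ ≤ 4 * C * (N : ℝ) ^ (2 * ε) * Z * P + (Z : ℝ) * (C * (N : ℝ) ^ (2 * ε) * P) := by
        refine add_le_add (c1.trans b3) (c2.trans ?_)
        gcongr
    _ = _ := by ring

theorem gcd_sum (Y q : ℕ) (hq : 1 ≤ q) :
    ∑ d ∈ Icc 1 Y, ((Nat.gcd d q : ℕ) : ℝ) / d ≤ (q.divisors.card : ℝ) * (1 + Real.log Y) := by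
  have h1 : ∀ d ∈ Icc 1 Y, ((Nat.gcd d q : ℕ) : ℝ) / d ≤
      ∑ g ∈ q.divisors, if g ∣ d then (g : ℝ) / d else 0 := by
    intro d _
    have h2 : Nat.gcd d q ∈ q.divisors := by
      rw [Nat.mem_divisors]
      exact ⟨Nat.gcd_dvd_right _ _, by omega⟩
    have h3 := single_le_sum (f := fun g : ℕ => if g ∣ d then (g : ℝ) / d else 0)
      (fun g _ => by positivity) h2
    rwa [if_pos (Nat.gcd_dvd_left _ _)] at h3
  refine (sum_le_sum h1).trans ?_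
  rw [sum_comm, ← nsmul_eq_mul]
  apply sum_le_card_nsmul
  intro g hg
  have hg1 : 1 ≤ g := Nat.pos_of_mem_divisors hg
  have hg0 : (0 : ℝ) < g := by exact_mod_cast hg1
  rw [← sum_filter]
  have h4 : ∑ d ∈ (Icc 1 Y).filter (fun d => g ∣ d), (g : ℝ) / d =
      ∑ m ∈ Icc 1 (Y / g), (1 : ℝ) / m := by
    symm
    refine sum_nbij (fun m => g * m) ?_ ?_ ?_ ?_
    · intro m hm
      rw [mem_Icc] at hm
      simp only [mem_filter, mem_Icc]
      refine ⟨⟨Nat.mul_pos hg1 hm.1, ?_⟩, dvd_mul_right _ _⟩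
      rw [mul_comm]
      exact (Nat.le_div_iff_mul_le hg1).1 hm.2
    · intro m _ m' _ h
      exact Nat.eq_of_mul_eq_mul_left hg1 h
    · intro n hn
      simp only [coe_filter, mem_Icc, Set.mem_ofPred_eq] at hn
      obtain ⟨⟨ha, hb⟩, m, rfl⟩ := hn
      refine ⟨m, ?_, rfl⟩
      simp only [coe_Icc, Set.mem_Icc]
      refine ⟨?_, ?_⟩
      · rcases Nat.eq_zero_or_pos m with h0 | h0
        · rw [h0, mul_zero] at ha
          omega
        · exact h0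
      · rw [Nat.le_div_iff_mul_le hg1, mul_comm]
        exact hb
    · intro m hm
      rw [mem_Icc] at hm
      have : (0 : ℝ) < m := by exact_mod_cast (by omega : 0 < m)
      push_cast
      field_simp
  rw [h4]
  rcases Nat.eq_zero_or_pos (Y / g) with h0 | h0
  · rw [h0]
    simp only [show Icc 1 0 = (∅ : Finset ℕ) from rfl, sum_empty]
    have : 0 ≤ Real.log Y := Real.log_natCast_nonneg _
    linarith
  · have h5 := harmonic_le_one_add_log (Y / g)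
    have h6 : ((harmonic (Y / g) : ℚ) : ℝ) = ∑ m ∈ Icc 1 (Y / g), (1 : ℝ) / m := by
      rw [harmonic_eq_sum_Icc]
      push_cast
      refine sum_congr rfl fun m _ => ?_
      rw [one_div]
    rw [← h6]
    refine h5.trans ?_
    have h7 : Real.log ((Y / g : ℕ) : ℝ) ≤ Real.log Y := by
      apply Real.log_le_log
      · exact_mod_cast h0
      · exact_mod_cast Nat.div_le_self _ _
    linarith

end Pool.Agent.Helper9.CMX
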