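import Pool.Agent.Helper9.CMX.MTb

/-! Block MT (MP_b6b996_nt): the main term of the type I part, assembly. -/

set_option autoImplicit false

namespace Pool.Agent.Helper9.CMX

open Finset
open Pool.Agent.Helper55.CM

theorem main_of {a : ℝ} (ha : 1 / 2 ≤ a) (ha1 : a ≤ 1)
    (hmus : ∀ ε : ℝ, 0 < ε → ∃ C : ℝ, 0 ≤ C ∧ MuS a ε C) (ε : ℝ) (hε : 0 < ε) :
    ∃ C : ℝ, 0 ≤ C ∧ ∀ N Y Z q : ℕ, 1 ≤ Y → Y ≤ Z → Z ≤ N → 1 ≤ q → q ≤ N →
      |∑ d ∈ Icc 1 Y, ∑ n ∈ (Icc 1 (N / Z)).filter (fun n => q ∣ d * n),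
        (mu d : ℝ) * (mu n : ℝ) * (((N / (d * n) : ℕ) : ℝ) - ((Z / d : ℕ) : ℝ))| ≤
      C * (N : ℝ) ^ ε * ((N : ℝ) ^ a * (Z : ℝ) ^ (1 - a) / (q : ℝ) ^ a +
        (Y : ℝ) * N / (Z * q)) := by
  set η : ℝ := ε / 4 with hη
  have hη0 : 0 < η := by positivity
  obtain ⟨C, hC, H⟩ := hmus η hη0
  obtain ⟨D, hD1, hD⟩ := Pool.Agent.Helper7.GPC.card_divisors_le hη0
  have hD0 : 0 ≤ D := by linarith
  refine ⟨5 * C * D * (1 + 1 / η) + D, by positivity, fun N Y Z q hY hYZ hZN hq hqN => ?_⟩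
  have hZ : 1 ≤ Z := hY.trans hYZ
  have hN : 1 ≤ N := hZ.trans hZN
  have hN0 : (0 : ℝ) < N := by exact_mod_cast hN
  have hN1 : (1 : ℝ) ≤ N := by exact_mod_cast hN
  have hZ0 : (0 : ℝ) < Z := by exact_mod_cast hZ
  have hq0 : (0 : ℝ) < q := by exact_mod_cast hq
  have hY0 : (0 : ℝ) < Y := by exact_mod_cast hY
  set K := N / Z with hK
  have hKle : (K : ℝ) ≤ (N : ℝ) / Z := Nat.cast_div_le
  have hYK : Y * K ≤ N := by
    calc Y * K ≤ Z * K := Nat.mul_le_mul_right _ hYZ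
      _ ≤ N := Nat.mul_div_le _ _
  -- powers of `N`
  have p1 : (1 : ℝ) ≤ (N : ℝ) ^ η := Real.one_le_rpow hN1 hη0.le
  have p4 : (N : ℝ) ^ (2 * η) * (N : ℝ) ^ η * (N : ℝ) ^ η = (N : ℝ) ^ ε := by
    rw [← Real.rpow_add hN0, ← Real.rpow_add hN0]
    congr 1
    rw [hη]
    ring
  have p5 : (N : ℝ) ^ η ≤ (N : ℝ) ^ ε := Real.rpow_le_rpow_of_exponent_le hN1 (by
    rw [hη]
    linarith)
  have hDk : ∀ k : ℕ, 1 ≤ k → k ≤ N → (k.divisors.card : ℝ) ≤ D * (N : ℝ) ^ η := by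
    intro k hk hkN
    refine (hD k (by omega)).trans ?_
    have : (k : ℝ) ^ η ≤ (N : ℝ) ^ η :=
      Real.rpow_le_rpow (by positivity) (by exact_mod_cast hkN) hη0.le
    gcongr
  -- splitting
  have e1 : ∑ d ∈ Icc 1 Y, ∑ n ∈ (Icc 1 K).filter (fun n => q ∣ d * n),
      (mu d : ℝ) * (mu n : ℝ) * (((N / (d * n) : ℕ) : ℝ) - ((Z / d : ℕ) : ℝ)) =
      (∑ d ∈ Icc 1 Y, ∑ n ∈ (Icc 1 K).filter (fun n => q ∣ d * n),
        (mu d : ℝ) * (mu n : ℝ) * ((((N / (d * n) : ℕ) : ℝ) - ((Z / d : ℕ) : ℝ)) -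
          ((N : ℝ) / (d * n) - (Z : ℝ) / d))) +
      ∑ d ∈ Icc 1 Y, ∑ n ∈ (Icc 1 K).filter (fun n => q ∣ d * n),
        (mu d : ℝ) * (mu n : ℝ) * ((N : ℝ) / (d * n) - (Z : ℝ) / d) := by
    rw [← sum_add_distrib]
    refine sum_congr rfl fun d _ => ?_
    rw [← sum_add_distrib]
    refine sum_congr rfl fun n _ => ?_
    ring
  rw [e1]
  -- the error
  have hE : |∑ d ∈ Icc 1 Y, ∑ n ∈ (Icc 1 K).filter (fun n => q ∣ d * n),
        (mu d : ℝ) * (mu n : ℝ) * ((((N / (d * n) : ℕ) : ℝ) - ((Z / d : ℕ) : ℝ)) -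
          ((N : ℝ) / (d * n) - (Z : ℝ) / d))| ≤ D * (N : ℝ) ^ ε * ((Y : ℝ) * N / (Z * q)) := by
    have h1 : |∑ d ∈ Icc 1 Y, ∑ n ∈ (Icc 1 K).filter (fun n => q ∣ d * n),
        (mu d : ℝ) * (mu n : ℝ) * ((((N / (d * n) : ℕ) : ℝ) - ((Z / d : ℕ) : ℝ)) -
          ((N : ℝ) / (d * n) - (Z : ℝ) / d))| ≤
        ∑ d ∈ Icc 1 Y, (((Icc 1 K).filter (fun n => q ∣ d * n)).card : ℝ) := by
      refine (abs_sum_le_sum_abs _ _).trans (sum_le_sum fun d _ => ?_)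
      refine (abs_sum_le_sum_abs _ _).trans ?_
      rw [card_eq_sum_ones]
      push_cast
      refine sum_le_sum fun n _ => ?_
      rw [abs_mul, abs_mul]
      have h2 := abs_mu_le d
      have h3 := abs_mu_le n
      have h4 := round_err N Z d n
      calc |(mu d : ℝ)| * |(mu n : ℝ)| * _ ≤ 1 * 1 * 1 := by gcongr
        _ = 1 := by norm_num
    refine h1.trans ((pairs_card Y K q (D * (N : ℝ) ^ η)
      (fun k hk hk' => hDk k hk (hk'.trans hYK)) (by positivity)).trans ?_)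
    have h5 : ((Y * K : ℕ) : ℝ) / q ≤ (Y : ℝ) * N / (Z * q) := by
      push_cast
      calc (Y : ℝ) * K / q ≤ (Y : ℝ) * ((N : ℝ) / Z) / q := by gcongr
        _ = _ := by field_simp
    gcongr
  -- the main part
  have hM : |∑ d ∈ Icc 1 Y, ∑ n ∈ (Icc 1 K).filter (fun n => q ∣ d * n),
        (mu d : ℝ) * (mu n : ℝ) * ((N : ℝ) / (d * n) - (Z : ℝ) / d)| ≤
      5 * C * D * (1 + 1 / η) * (N : ℝ) ^ ε * ((N : ℝ) ^ a * (Z : ℝ) ^ (1 - a) / (q : ℝ) ^ a) := by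
    have h1 : ∀ d ∈ Icc 1 Y, |∑ n ∈ (Icc 1 K).filter (fun n => q ∣ d * n),
        (mu d : ℝ) * (mu n : ℝ) * ((N : ℝ) / (d * n) - (Z : ℝ) / d)| ≤
        (5 * C * (N : ℝ) ^ (2 * η) * Z * ((K : ℝ) ^ a / (q : ℝ) ^ a)) *
          (((Nat.gcd d q : ℕ) : ℝ) / d) := by
      intro d hd
      rw [mem_Icc] at hd
      have hd0 : (0 : ℝ) < d := by exact_mod_cast (by omega : 0 < d)
      have hg : 0 < Nat.gcd d q := Nat.gcd_pos_of_pos_right _ hq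
      have hg1 : (1 : ℝ) ≤ ((Nat.gcd d q : ℕ) : ℝ) := by exact_mod_cast hg
      have hgq : Nat.gcd d q ∣ q := Nat.gcd_dvd_right _ _
      have hr1 : 1 ≤ q / Nat.gcd d q := Nat.div_pos (Nat.le_of_dvd hq hgq) hg
      have hrN : q / Nat.gcd d q ≤ N := (Nat.div_le_self _ _).trans hqN
      have e2 : (Icc 1 K).filter (fun n => q ∣ d * n) =
          (Icc 1 K).filter (fun n => q / Nat.gcd d q ∣ n) := by
        refine filter_congr fun n _ => ?_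
        exact dvd_iff9 d n hq
      have e3 : ∑ n ∈ (Icc 1 K).filter (fun n => q ∣ d * n),
          (mu d : ℝ) * (mu n : ℝ) * ((N : ℝ) / (d * n) - (Z : ℝ) / d) =
          (mu d : ℝ) / d * ((N : ℝ) * ∑ n ∈ (Icc 1 K).filter (fun n => q / Nat.gcd d q ∣ n),
            (mu n : ℝ) * (1 / (n : ℝ)) -
            (Z : ℝ) * ∑ n ∈ (Icc 1 K).filter (fun n => q / Nat.gcd d q ∣ n), (mu n : ℝ) * 1) := by
        rw [e2, mul_sum, mul_sum, ← sum_sub_distrib, mul_sum]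
        refine sum_congr rfl fun n hn => ?_
        rw [mem_filter, mem_Icc] at hn
        have hn0 : (0 : ℝ) < n := by exact_mod_cast (by omega : 0 < n)
        field_simp
      rw [e3, abs_mul, abs_div, abs_of_pos hd0]
      have h2 := per_d ha ha1 hη0 hC H hZ hZN hr1 hrN hK
      have h3 := abs_mu_le d
      have h4 : ((K : ℝ) / ((q / Nat.gcd d q : ℕ) : ℝ)) ^ a ≤
          ((K : ℝ) ^ a / (q : ℝ) ^ a) * ((Nat.gcd d q : ℕ) : ℝ) := by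
        have h5 : (K : ℝ) / ((q / Nat.gcd d q : ℕ) : ℝ) = (K : ℝ) / q * ((Nat.gcd d q : ℕ) : ℝ) := by
          rw [Nat.cast_div hgq (by positivity)]
          field_simp
        rw [h5, Real.mul_rpow (by positivity) (by positivity),
          Real.div_rpow (by positivity) (by positivity)]
        have h6 : (((Nat.gcd d q : ℕ) : ℝ)) ^ a ≤ ((Nat.gcd d q : ℕ) : ℝ) ^ (1 : ℝ) :=
          Real.rpow_le_rpow_of_exponent_le hg1 ha1
        rw [Real.rpow_one] at h6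
        gcongr
      calc |(mu d : ℝ)| / d * |_| ≤ 1 / d * (5 * C * (N : ℝ) ^ (2 * η) * Z *
            ((K : ℝ) / ((q / Nat.gcd d q : ℕ) : ℝ)) ^ a) := by gcongr
        _ ≤ 1 / d * (5 * C * (N : ℝ) ^ (2 * η) * Z *
            (((K : ℝ) ^ a / (q : ℝ) ^ a) * ((Nat.gcd d q : ℕ) : ℝ))) := by gcongr
        _ = _ := by ring
    refine (abs_sum_le_sum_abs _ _).trans ((sum_le_sum h1).trans ?_)
    rw [← mul_sum]
    have h7 := gcd_sum Y q hq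
    have h8 : (q.divisors.card : ℝ) ≤ D * (N : ℝ) ^ η := hDk q hq hqN
    have h9 : 1 + Real.log Y ≤ (1 + 1 / η) * (N : ℝ) ^ η := by
      have h10 : Real.log Y ≤ Real.log N :=
        Real.log_le_log hY0 (by exact_mod_cast hYZ.trans hZN)
      have h11 := Real.log_le_rpow_div hN0.le hη0
      have h12 : (1 + 1 / η) * (N : ℝ) ^ η = (N : ℝ) ^ η + (N : ℝ) ^ η / η := by ring
      rw [h12]
      linarith
    have h13 : (Z : ℝ) * (K : ℝ) ^ a ≤ (N : ℝ) ^ a * (Z : ℝ) ^ (1 - a) := by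
      calc (Z : ℝ) * (K : ℝ) ^ a ≤ Z * ((N : ℝ) / Z) ^ a := by
            gcongr
        _ = (N : ℝ) ^ a * (Z : ℝ) ^ (1 - a) := by
            rw [Real.div_rpow hN0.le hZ0.le, Real.rpow_sub hZ0, Real.rpow_one]
            ring
    have hlog0 : 0 ≤ 1 + Real.log Y := by
      have : 0 ≤ Real.log Y := Real.log_natCast_nonneg _
      linarith
    calc 5 * C * (N : ℝ) ^ (2 * η) * Z * ((K : ℝ) ^ a / (q : ℝ) ^ a) *
          ∑ d ∈ Icc 1 Y, ((Nat.gcd d q : ℕ) : ℝ) / d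
        ≤ 5 * C * (N : ℝ) ^ (2 * η) * Z * ((K : ℝ) ^ a / (q : ℝ) ^ a) *
          ((D * (N : ℝ) ^ η) * ((1 + 1 / η) * (N : ℝ) ^ η)) := by
          apply mul_le_mul_of_nonneg_left _ (by positivity)
          refine h7.trans ?_
          gcongr
      _ = 5 * C * D * (1 + 1 / η) * ((N : ℝ) ^ (2 * η) * (N : ℝ) ^ η * (N : ℝ) ^ η) *
          ((Z : ℝ) * (K : ℝ) ^ a / (q : ℝ) ^ a) := by ring
      _ ≤ 5 * C * D * (1 + 1 / η) * (N : ℝ) ^ ε *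
          ((N : ℝ) ^ a * (Z : ℝ) ^ (1 - a) / (q : ℝ) ^ a) := by
          rw [p4]
          gcongr
  refine (abs_add_le _ _).trans ((add_le_add hE hM).trans ?_)
  have q1 : 0 ≤ (N : ℝ) ^ ε * ((Y : ℝ) * N / (Z * q)) := by positivity
  have q2 : 0 ≤ (N : ℝ) ^ ε * ((N : ℝ) ^ a * (Z : ℝ) ^ (1 - a) / (q : ℝ) ^ a) := by positivity
  have q3 : 0 ≤ 5 * C * D * (1 + 1 / η) := by positivity
  nlinarith [mul_nonneg q3 q1, mul_nonneg hD0 q2]

end Pool.Agent.Helper9.CMX
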